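import Pool.Agent.V5helper18.Ch.B
import Pool.Agent.H789R2.AN.Man

/-!
# Charts and hyperbolic splittings, part A
-/

set_option autoImplicit false
set_option linter.unusedSectionVars false

open scoped Manifold ContDiff Topology
open Set Filter

namespace Pool.Agent.V5helper18.Ma

open Pool.Agent.H721R2

section chart

variable {E₀ : Type*} [NormedAddCommGroup E₀] [NormedSpace ℝ E₀]
  {M : Type*} [TopologicalSpace M] [ChartedSpace E₀ M] [IsManifold 𝓘(ℝ, E₀) 1 M]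
  {F : Type*} [NormedAddCommGroup F] [NormedSpace ℝ F]

/-- the derivative of the chart at `a`, at the point `x` -/
noncomputable def J (E₀ : Type*) [NormedAddCommGroup E₀] [NormedSpace ℝ E₀]
    {M : Type*} [TopologicalSpace M] [ChartedSpace E₀ M] (a x : M) : E₀ →L[ℝ] E₀ :=
  dm E₀ (extChartAt 𝓘(ℝ, E₀) a) x

/-- the derivative of the inverse chart -/
noncomputable def T {E₀ : Type*} [NormedAddCommGroup E₀] [NormedSpace ℝ E₀]
    {M : Type*} [TopologicalSpace M] [ChartedSpace E₀ M] (a : M) (z : E₀) : E₀ →L[ℝ] E₀ :=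
  mfderiv 𝓘(ℝ, E₀) 𝓘(ℝ, E₀) (extChartAt 𝓘(ℝ, E₀) a).symm z

theorem symm_mdiff (a : M) {z : E₀} (hz : z ∈ (extChartAt 𝓘(ℝ, E₀) a).target) :
    MDifferentiableAt 𝓘(ℝ, E₀) 𝓘(ℝ, E₀) (extChartAt 𝓘(ℝ, E₀) a).symm z :=
  (((contMDiffOn_extChartAt_symm (n := 1) a).contMDiffAt
    ((isOpen_extChartAt_target a).mem_nhds hz))).mdifferentiableAt (by norm_num)

theorem chart_mdiff (a : M) {x : M} (hx : x ∈ (extChartAt 𝓘(ℝ, E₀) a).source) :
    MDifferentiableAt 𝓘(ℝ, E₀) 𝓘(ℝ, E₀) (extChartAt 𝓘(ℝ, E₀) a) x := by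
  apply mdifferentiableAt_extChartAt
  rwa [extChartAt_source] at hx

theorem J_T (a : M) {z : E₀} (hz : z ∈ (extChartAt 𝓘(ℝ, E₀) a).target) (v : E₀) :
    J E₀ a ((extChartAt 𝓘(ℝ, E₀) a).symm z) (T a z v) = v := by
  have h1 := symm_mdiff a hz
  have h2 := chart_mdiff a ((extChartAt 𝓘(ℝ, E₀) a).map_target hz)
  have h3 := mfderiv_comp z h2 h1
  have h4 : (extChartAt 𝓘(ℝ, E₀) a) ∘ (extChartAt 𝓘(ℝ, E₀) a).symm =ᶠ[𝓝 z] id := by
    filter_upwards [(isOpen_extChartAt_target a).mem_nhds hz] with w hw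
    exact (extChartAt 𝓘(ℝ, E₀) a).right_inv hw
  rw [h4.mfderiv_eq, mfderiv_id] at h3
  exact (congrArg (fun L : E₀ →L[ℝ] E₀ => L v) h3).symm

theorem T_J (a : M) {x : M} (hx : x ∈ (extChartAt 𝓘(ℝ, E₀) a).source) (v : E₀) :
    T a (extChartAt 𝓘(ℝ, E₀) a x) (J E₀ a x v) = v := by
  have h1 := symm_mdiff a ((extChartAt 𝓘(ℝ, E₀) a).map_source hx)
  have h2 := chart_mdiff a hx
  have h3 := mfderiv_comp x h1 h2
  have h4 : (extChartAt 𝓘(ℝ, E₀) a).symm ∘ (extChartAt 𝓘(ℝ, E₀) a) =ᶠ[𝓝 x] id := by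
    filter_upwards [(isOpen_extChartAt_source (I := 𝓘(ℝ, E₀)) a).mem_nhds hx] with w hw
    exact (extChartAt 𝓘(ℝ, E₀) a).left_inv hw
  rw [h4.mfderiv_eq, mfderiv_id] at h3
  exact (congrArg (fun L : E₀ →L[ℝ] E₀ => L v) h3).symm

theorem T_J' (a : M) {z : E₀} (hz : z ∈ (extChartAt 𝓘(ℝ, E₀) a).target) (v : E₀) :
    T a z (J E₀ a ((extChartAt 𝓘(ℝ, E₀) a).symm z) v) = v := by
  have := T_J a ((extChartAt 𝓘(ℝ, E₀) a).map_target hz) v
  rwa [(extChartAt 𝓘(ℝ, E₀) a).right_inv hz] at this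

/-- the chart expression of a self-map -/
noncomputable def hat (E₀ : Type*) [NormedAddCommGroup E₀] [NormedSpace ℝ E₀]
    {M : Type*} [TopologicalSpace M] [ChartedSpace E₀ M] (a b : M) (G : M → M) : E₀ → E₀ :=
  (extChartAt 𝓘(ℝ, E₀) b) ∘ G ∘ (extChartAt 𝓘(ℝ, E₀) a).symm

theorem hat_contDiffAt {G : M → M} (hG : ContMDiff 𝓘(ℝ, E₀) 𝓘(ℝ, E₀) 1 G) (a b : M) {z : E₀}
    (hz : z ∈ (extChartAt 𝓘(ℝ, E₀) a).target)
    (hGz : G ((extChartAt 𝓘(ℝ, E₀) a).symm z) ∈ (extChartAt 𝓘(ℝ, E₀) b).source) :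
    ContDiffAt ℝ 1 (hat E₀ a b G) z := by
  rw [← contMDiffAt_iff_contDiffAt]
  have h1 : ContMDiffAt 𝓘(ℝ, E₀) 𝓘(ℝ, E₀) 1 (extChartAt 𝓘(ℝ, E₀) a).symm z :=
    (contMDiffOn_extChartAt_symm a).contMDiffAt ((isOpen_extChartAt_target a).mem_nhds hz)
  have h2 : ContMDiffAt 𝓘(ℝ, E₀) 𝓘(ℝ, E₀) 1 (extChartAt 𝓘(ℝ, E₀) b)
      (G ((extChartAt 𝓘(ℝ, E₀) a).symm z)) := by
    apply contMDiffAt_extChartAt'
    rwa [extChartAt_source] at hGz
  exact ContMDiffAt.comp z h2 (ContMDiffAt.comp z hG.contMDiffAt h1)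

theorem hat_fderiv {G : M → M} (hG : ContMDiff 𝓘(ℝ, E₀) 𝓘(ℝ, E₀) 1 G) (a b : M) {z : E₀}
    (hz : z ∈ (extChartAt 𝓘(ℝ, E₀) a).target)
    (hGz : G ((extChartAt 𝓘(ℝ, E₀) a).symm z) ∈ (extChartAt 𝓘(ℝ, E₀) b).source) (v : E₀) :
    fderiv ℝ (hat E₀ a b G) z v = J E₀ b (G ((extChartAt 𝓘(ℝ, E₀) a).symm z))
      (dg E₀ G ((extChartAt 𝓘(ℝ, E₀) a).symm z) (T a z v)) := by
  have h1 := symm_mdiff a hz
  have h2 := chart_mdiff b hGz
  have h3 : MDifferentiableAt 𝓘(ℝ, E₀) 𝓘(ℝ, E₀) G ((extChartAt 𝓘(ℝ, E₀) a).symm z) :=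
    hG.mdifferentiableAt (by norm_num)
  have h4 : MDifferentiableAt 𝓘(ℝ, E₀) 𝓘(ℝ, E₀) (G ∘ (extChartAt 𝓘(ℝ, E₀) a).symm) z :=
    MDifferentiableAt.comp z h3 h1
  have h5 := mfderiv_comp z (show MDifferentiableAt 𝓘(ℝ, E₀) 𝓘(ℝ, E₀) (extChartAt 𝓘(ℝ, E₀) b)
    ((G ∘ (extChartAt 𝓘(ℝ, E₀) a).symm) z) from h2) h4
  have h6 := mfderiv_comp z h3 h1
  rw [← mfderiv_eq_fderiv]
  show (mfderiv 𝓘(ℝ, E₀) 𝓘(ℝ, E₀) ((extChartAt 𝓘(ℝ, E₀) b) ∘
    (G ∘ (extChartAt 𝓘(ℝ, E₀) a).symm)) z : E₀ →L[ℝ] E₀) v = _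
  rw [h5, h6]
  rfl

/-- `dm` of a vector-valued map in a chart. -/
theorem dm_T (e : M → F) (he : ContMDiff 𝓘(ℝ, E₀) 𝓘(ℝ, F) 1 e) (a : M) {z : E₀}
    (hz : z ∈ (extChartAt 𝓘(ℝ, E₀) a).target) (v : E₀) :
    dm E₀ e ((extChartAt 𝓘(ℝ, E₀) a).symm z) (T a z v) = fderiv ℝ (hatMap e a) z v := by
  have h1 := hatMap_mfderiv e he a _ ((extChartAt 𝓘(ℝ, E₀) a).map_target hz) (T a z v)
  rw [h1, (extChartAt 𝓘(ℝ, E₀) a).right_inv hz]
  have h2 := J_T a hz v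
  unfold J at h2
  rw [h2]

end chart

section proj

variable {E₀ : Type*} [NormedAddCommGroup E₀] [NormedSpace ℝ E₀] [FiniteDimensional ℝ E₀]
  {M : Type*}

/-- the projection onto `U` along `S` -/
noncomputable def Pj {S U : Submodule ℝ E₀} (h : IsCompl S U) : E₀ →L[ℝ] E₀ :=
  LinearMap.toContinuousLinearMap (U.projection S h.symm)

theorem Pj_mem {S U : Submodule ℝ E₀} (h : IsCompl S U) (v : E₀) : Pj h v ∈ U :=
  Submodule.projection_apply_mem h.symm v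

theorem Pj_sub {S U : Submodule ℝ E₀} (h : IsCompl S U) (v : E₀) : v - Pj h v ∈ S := by
  have h1 := Submodule.projection_add_projection_eq_self h v
  have h2 := Submodule.projection_apply_mem h v
  have h3 : v - Pj h v = S.projection U h v := by
    rw [sub_eq_iff_eq_add]
    exact h1.symm
  rw [h3]; exact h2

theorem Pj_eq {S U : Submodule ℝ E₀} (h : IsCompl S U) {v s u : E₀} (hs : s ∈ S) (hu : u ∈ U)
    (hv : v = s + u) : Pj h v = u := by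
  have h1 : Pj h v - u ∈ U := U.sub_mem (Pj_mem h v) hu
  have h2 : Pj h v - u ∈ S := by
    have : Pj h v - u = s - (v - Pj h v) := by rw [hv]; abel
    rw [this]
    exact S.sub_mem hs (Pj_sub h v)
  have h3 : Pj h v - u ∈ S ⊓ U := ⟨h2, h1⟩
  rw [h.inf_eq_bot, Submodule.mem_bot] at h3
  exact sub_eq_zero.1 h3

theorem Pj_of_mem {S U : Submodule ℝ E₀} (h : IsCompl S U) {u : E₀} (hu : u ∈ U) : Pj h u = u :=
  Pj_eq h S.zero_mem hu (by simp)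

theorem Pj_zero {S U : Submodule ℝ E₀} (h : IsCompl S U) {s : E₀} (hs : s ∈ S) : Pj h s = 0 :=
  Pj_eq h hs U.zero_mem (by simp)

end proj

section cont

variable {E₀ : Type*} [NormedAddCommGroup E₀] [NormedSpace ℝ E₀] [FiniteDimensional ℝ E₀]
  {M : Type*} [MetricSpace M] [CompactSpace M] [ChartedSpace E₀ M] [IsManifold 𝓘(ℝ, E₀) 1 M]
  {F : Type*} [NormedAddCommGroup F] [NormedSpace ℝ F]

/-- the projection in a chart -/
noncomputable def PC {Es Eu : M → Submodule ℝ E₀} (hc : ∀ x, IsCompl (Es x) (Eu x)) (a : M)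
    (z : E₀) : E₀ →L[ℝ] E₀ :=
  (J E₀ a ((extChartAt 𝓘(ℝ, E₀) a).symm z)).comp
    ((Pj (hc ((extChartAt 𝓘(ℝ, E₀) a).symm z))).comp (T a z))

theorem PC_apply {Es Eu : M → Submodule ℝ E₀} (hc : ∀ x, IsCompl (Es x) (Eu x)) (a : M)
    (z v : E₀) : PC hc a z v = J E₀ a ((extChartAt 𝓘(ℝ, E₀) a).symm z)
      (Pj (hc ((extChartAt 𝓘(ℝ, E₀) a).symm z)) (T a z v)) := rfl

theorem T_PC {Es Eu : M → Submodule ℝ E₀} (hc : ∀ x, IsCompl (Es x) (Eu x)) (a : M)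
    {z : E₀} (hz : z ∈ (extChartAt 𝓘(ℝ, E₀) a).target) (v : E₀) :
    T a z (PC hc a z v) = Pj (hc ((extChartAt 𝓘(ℝ, E₀) a).symm z)) (T a z v) := by
  rw [PC_apply, T_J' a hz]

theorem PC_idem {Es Eu : M → Submodule ℝ E₀} (hc : ∀ x, IsCompl (Es x) (Eu x)) (a : M)
    {z : E₀} (hz : z ∈ (extChartAt 𝓘(ℝ, E₀) a).target) : PC hc a z * PC hc a z = PC hc a z := by
  ext v
  show PC hc a z (PC hc a z v) = PC hc a z v
  rw [PC_apply, T_PC hc a hz, Pj_of_mem _ (Pj_mem _ _), ← PC_apply]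

theorem PC_cont (e : M → F) (he : ContMDiff 𝓘(ℝ, E₀) 𝓘(ℝ, F) 1 e)
    (hinj : ∀ x, Function.Injective (dm E₀ e x))
    {f : M ≃ₜ M} {Es Eu : M → Submodule ℝ E₀} {C a' b Ls Lu : ℝ}
    (h : EAnosov e f Es Eu C a' b Ls Lu) (a : M) :
    ContinuousOn (PC h.compl a) (extChartAt 𝓘(ℝ, E₀) a).target := by
  obtain ⟨K, hK, hang⟩ := h.angle he hinj
  have hK0 : 0 < K := by linarith
  intro z₀ hz₀
  apply ContinuousAt.continuousWithinAt
  set φ := extChartAt 𝓘(ℝ, E₀) a with hφ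
  set x₀ := φ.symm z₀ with hx₀
  set Jf : E₀ → (E₀ →L[ℝ] F) := fun z => fderiv ℝ (hatMap e a) z with hJf
  have hJc : ContinuousAt Jf z₀ := by
    have := (hatMap_contDiffAt e he a z₀ hz₀).fderiv_right (m := 0) (by norm_num)
    exact this.continuousAt
  have hJker : (Jf z₀ : E₀ →ₗ[ℝ] F).ker = ⊥ := by
    rw [LinearMap.ker_eq_bot']
    intro v hv
    have h1 : dm E₀ e x₀ (T a z₀ v) = 0 := by
      rw [dm_T e he a hz₀]; exact hv
    have h2 : T a z₀ v = 0 := hinj x₀ (by rw [h1, map_zero])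
    have h3 := J_T a hz₀ v
    rw [h2, map_zero] at h3
    exact h3.symm
  obtain ⟨κ, hκ, hanti⟩ := LinearMap.exists_antilipschitzWith _ hJker
  have hκ' : (0 : ℝ) < κ := hκ
  have hκv : ∀ v, ‖v‖ ≤ κ * ‖Jf z₀ v‖ := by
    intro v
    have := hanti.le_mul_dist v 0
    simpa [dist_eq_norm] using this
  have hpos : 0 < 2 * (κ : ℝ) * (K * (1 + 2 * K * ‖Jf z₀‖) + K * ‖Jf z₀‖ + ‖PC h.compl a z₀‖) + 1 :=
    by positivity
  rw [Metric.continuousAt_iff']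
  intro ε hε
  set Γ := 2 * (κ : ℝ) * (K * (1 + 2 * K * ‖Jf z₀‖) + K * ‖Jf z₀‖ + ‖PC h.compl a z₀‖) with hΓ
  set η := ε / 2 / (Γ + 1) with hη
  have hη0 : 0 < η := by positivity
  obtain ⟨r1, hr1, hS⟩ := h.contS he hinj η hη0
  obtain ⟨r2, hr2, hU⟩ := h.symm.contS he hinj η hη0
  have hsym : ContinuousAt φ.symm z₀ :=
    (continuousOn_extChartAt_symm a).continuousAt ((isOpen_extChartAt_target a).mem_nhds hz₀)
  have ev1 : ∀ᶠ z in 𝓝 z₀, dist (φ.symm z) x₀ < min r1 r2 :=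
    Metric.continuousAt_iff'.1 hsym _ (lt_min hr1 hr2)
  have ev2 : ∀ᶠ z in 𝓝 z₀, dist (Jf z) (Jf z₀) < min η (1 / (2 * κ)) :=
    Metric.continuousAt_iff'.1 hJc _ (lt_min hη0 (by positivity))
  filter_upwards [ev1, ev2, (isOpen_extChartAt_target a).mem_nhds hz₀] with z hz1 hz2 hzt
  rw [dist_eq_norm] at hz2 ⊢
  have hz3 : ‖Jf z - Jf z₀‖ ≤ η := (hz2.trans_le (min_le_left _ _)).le
  have hz4 : ‖Jf z - Jf z₀‖ ≤ 1 / (2 * κ) := (hz2.trans_le (min_le_right _ _)).le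
  have hlow : ∀ v, ‖v‖ ≤ 2 * κ * ‖Jf z v‖ := by
    intro v
    have h1 := hκv v
    have h2 : ‖Jf z₀ v‖ ≤ ‖Jf z v‖ + ‖Jf z - Jf z₀‖ * ‖v‖ := by
      have h3 : Jf z₀ v = Jf z v - (Jf z - Jf z₀) v := by simp
      calc ‖Jf z₀ v‖ ≤ ‖Jf z v‖ + ‖(Jf z - Jf z₀) v‖ := by rw [h3]; exact norm_sub_le _ _
        _ ≤ _ := by gcongr; exact (Jf z - Jf z₀).le_opNorm v
    have h4 : ‖Jf z - Jf z₀‖ * ‖v‖ ≤ 1 / (2 * κ) * ‖v‖ :=
      mul_le_mul_of_nonneg_right hz4 (norm_nonneg _)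
    have h5 : (κ : ℝ) * (1 / (2 * κ) * ‖v‖) = ‖v‖ / 2 := by field_simp
    have h6 : ‖v‖ ≤ κ * (‖Jf z v‖ + 1 / (2 * κ) * ‖v‖) :=
      h1.trans (mul_le_mul_of_nonneg_left (h2.trans (by linarith)) hκ'.le)
    rw [mul_add, h5] at h6
    linarith
  have main : ‖PC h.compl a z - PC h.compl a z₀‖ ≤ Γ * η := by
    apply ContinuousLinearMap.opNorm_le_bound _ (by positivity)
    intro v
    set x := φ.symm z with hx
    set w₀ := T a z₀ v with hw₀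
    set w := T a z v with hw
    set u₀ := Pj (h.compl x₀) w₀ with hu₀
    have hu₀m : u₀ ∈ Eu x₀ := Pj_mem _ _
    have hs₀m : w₀ - u₀ ∈ Es x₀ := Pj_sub _ _
    have hd : dist x₀ x < min r1 r2 := by rw [dist_comm]; exact hz1
    obtain ⟨s', hs'm, hs'⟩ := hS x₀ x (hd.trans_le (min_le_left _ _)) _ hs₀m
    obtain ⟨u', hu'm, hu'⟩ := hU x₀ x (hd.trans_le (min_le_right _ _)) _ hu₀m
    obtain ⟨a1, a2⟩ := hang x₀ _ hs₀m _ hu₀m
    rw [sub_add_cancel] at a1 a2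
    have b0 : dm E₀ e x₀ w₀ = Jf z₀ v := dm_T e he a hz₀ v
    have b1 : dm E₀ e x w = Jf z v := dm_T e he a hzt v
    rw [b0] at a1 a2
    set L := ‖Jf z₀‖ with hL
    have hLv : ‖Jf z₀ v‖ ≤ L * ‖v‖ := (Jf z₀).le_opNorm v
    have hv0 := norm_nonneg v
    have a1' : ‖dm E₀ e x₀ (w₀ - u₀)‖ ≤ K * (L * ‖v‖) :=
      a1.trans (mul_le_mul_of_nonneg_left hLv hK0.le)
    have a2' : ‖dm E₀ e x₀ u₀‖ ≤ K * (L * ‖v‖) :=
      a2.trans (mul_le_mul_of_nonneg_left hLv hK0.le)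
    have c1 : ‖dm E₀ e x₀ (w₀ - u₀) - dm E₀ e x s'‖ ≤ η * (K * (L * ‖v‖)) :=
      hs'.trans (mul_le_mul_of_nonneg_left a1' hη0.le)
    have c2 : ‖dm E₀ e x₀ u₀ - dm E₀ e x u'‖ ≤ η * (K * (L * ‖v‖)) :=
      hu'.trans (mul_le_mul_of_nonneg_left a2' hη0.le)
    have c3 : ‖(Jf z - Jf z₀) v‖ ≤ η * ‖v‖ :=
      ((Jf z - Jf z₀).le_opNorm v).trans (mul_le_mul_of_nonneg_right hz3 hv0)
    have d1 : dm E₀ e x (w - s' - u') = (Jf z - Jf z₀) v +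
        ((dm E₀ e x₀ (w₀ - u₀) - dm E₀ e x s') + (dm E₀ e x₀ u₀ - dm E₀ e x u')) := by
      rw [map_sub, map_sub, map_sub (dm E₀ e x₀) w₀ u₀, b0, b1]
      simp only [ContinuousLinearMap.sub_apply]
      abel
    have d2 : ‖dm E₀ e x (w - s' - u')‖ ≤ η * ‖v‖ + (η * (K * (L * ‖v‖)) + η * (K * (L * ‖v‖))) := by
      rw [d1]
      refine (norm_add_le _ _).trans (add_le_add c3 ?_)
      exact (norm_add_le _ _).trans (add_le_add c1 c2)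
    have d3 : Pj (h.compl x) w - u' ∈ Eu x := (Eu x).sub_mem (Pj_mem _ _) hu'm
    have d4 : (w - Pj (h.compl x) w) - s' ∈ Es x := (Es x).sub_mem (Pj_sub _ _) hs'm
    obtain ⟨-, d5⟩ := hang x _ d4 _ d3
    have d6 : (w - Pj (h.compl x) w) - s' + (Pj (h.compl x) w - u') = w - s' - u' := by abel
    rw [d6] at d5
    have d7 := d5.trans (mul_le_mul_of_nonneg_left d2 hK0.le)
    -- now the difference
    have e1 : Jf z (PC h.compl a z v) = dm E₀ e x (Pj (h.compl x) w) := by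
      rw [← dm_T e he a hzt, T_PC h.compl a hzt]
    have e2 : Jf z₀ (PC h.compl a z₀ v) = dm E₀ e x₀ u₀ := by
      show fderiv ℝ (hatMap e a) z₀ _ = _
      rw [← dm_T e he a hz₀, T_PC h.compl a hz₀]
    have e3 : Jf z (PC h.compl a z v - PC h.compl a z₀ v) =
        dm E₀ e x (Pj (h.compl x) w - u') - (dm E₀ e x₀ u₀ - dm E₀ e x u') -
          (Jf z - Jf z₀) (PC h.compl a z₀ v) := by
      rw [map_sub, e1, map_sub, ContinuousLinearMap.sub_apply, e2]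
      abel
    have e4 : ‖(Jf z - Jf z₀) (PC h.compl a z₀ v)‖ ≤ η * (‖PC h.compl a z₀‖ * ‖v‖) :=
      ((Jf z - Jf z₀).le_opNorm _).trans (mul_le_mul hz3 ((PC h.compl a z₀).le_opNorm v)
        (norm_nonneg _) hη0.le)
    have e5 : ‖Jf z (PC h.compl a z v - PC h.compl a z₀ v)‖ ≤
        K * (η * ‖v‖ + (η * (K * (L * ‖v‖)) + η * (K * (L * ‖v‖)))) + η * (K * (L * ‖v‖)) +
          η * (‖PC h.compl a z₀‖ * ‖v‖) := by
      rw [e3]
      refine (norm_sub_le _ _).trans (add_le_add ?_ e4)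
      exact (norm_sub_le _ _).trans (add_le_add d7 c2)
    have e6 := (hlow (PC h.compl a z v - PC h.compl a z₀ v)).trans
      (mul_le_mul_of_nonneg_left e5 (by positivity))
    rw [ContinuousLinearMap.sub_apply]
    refine e6.trans (le_of_eq ?_)
    rw [hΓ]
    ring
  refine main.trans_lt ?_
  have h1 : Γ * η ≤ (Γ + 1) * η := by nlinarith
  have h2 : (Γ + 1) * η = ε / 2 := by
    rw [hη]; field_simp
  linarith

end cont

end Pool.Agent.V5helper18.Ma
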