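import Pool.Agent.V5helper18.Ma.A
import Pool.Agent.Y331.EP.Base

/-!
# Charts and hyperbolic splittings, part B: decay and uniform charts
-/

set_option autoImplicit false
set_option linter.unusedSectionVars false

open scoped Manifold ContDiff Topology
open Set Filter

namespace Pool.Agent.V5helper18.Ma

open Pool.Agent.H721R2

theorem fin_min {A : Type*} (T : Finset A) (P : A → ℝ → Prop)
    (mono : ∀ a ρ ρ', 0 < ρ' → ρ' ≤ ρ → P a ρ → P a ρ') (h : ∀ a ∈ T, ∃ ρ > 0, P a ρ) :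
    ∃ ρ > 0, ∀ a ∈ T, P a ρ := by
  classical
  induction T using Finset.induction_on with
  | empty => exact ⟨1, one_pos, fun a ha => absurd ha (Finset.notMem_empty a)⟩
  | insert a T ha ih =>
    obtain ⟨ρ1, h1, h2⟩ := ih fun b hb => h b (Finset.mem_insert_of_mem hb)
    obtain ⟨ρ2, h3, h4⟩ := h a (Finset.mem_insert_self a T)
    have h5 : 0 < min ρ1 ρ2 := lt_min h1 h3
    refine ⟨min ρ1 ρ2, h5, fun b hb => ?_⟩
    rcases Finset.mem_insert.1 hb with rfl | hb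
    · exact mono _ _ _ h5 (min_le_right _ _) h4
    · exact mono _ _ _ h5 (min_le_left _ _) (h2 b hb)

section decay

variable {E₀ : Type*} [NormedAddCommGroup E₀] [NormedSpace ℝ E₀]
  {M : Type*} [TopologicalSpace M] [ChartedSpace E₀ M] [IsManifold 𝓘(ℝ, E₀) 1 M]
  {F : Type*} [NormedAddCommGroup F] [NormedSpace ℝ F]
  {e : M → F} {f : M ≃ₜ M} {Es Eu : M → Submodule ℝ E₀} {C a b Ls Lu : ℝ}

theorem decay (h : EAnosov e f Es Eu C a b Ls Lu) (hinj : ∀ x, Function.Injective (dm E₀ e x))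
    {x : ℕ → M} {w : ℕ → E₀} {τ B : ℝ} (hτ : τ ∈ Icc (0 : ℝ) 1)
    (hx : ∀ n, f (x (n + 1)) = x n) (hw : ∀ n, w n = τ • dg E₀ f (x (n + 1)) (w (n + 1)))
    (hm : ∀ n, w n ∈ Es (x n)) (hB : ∀ n, ‖dm E₀ e (x n) (w n)‖ ≤ B) : w 0 = 0 := by
  have hxn : ∀ n, f^[n] (x n) = x 0 := by
    intro n
    induction n with
    | zero => rfl
    | succ n ih => rw [Function.iterate_succ_apply, hx, ih]
  have hwn : ∀ n, w 0 = τ ^ n • dg E₀ (f^[n]) (x n) (w n) := by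
    intro n
    induction n with
    | zero =>
      have : dg E₀ (f^[0]) (x 0) (w 0) = w 0 := by
        show mfderiv 𝓘(ℝ, E₀) 𝓘(ℝ, E₀) id (x 0) (w 0) = w 0
        rw [mfderiv_id]; rfl
      rw [this, pow_zero, one_smul]
    | succ n ih =>
      rw [Function.iterate_succ, dg_comp _ _ h.smooth (iter_smooth f h.smooth n), hx, pow_succ,
        mul_smul, ← map_smul, ← hw]
      exact ih
  have hB0 : 0 ≤ B := (norm_nonneg _).trans (hB 0)
  have hC : 0 ≤ C := zero_le_one.trans h.C_pos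
  have hle : ∀ n, ‖dm E₀ e (x 0) (w 0)‖ ≤ C * a ^ n * B := by
    intro n
    have h1 := h.hS n (x n) (w n) (hm n)
    rw [hxn] at h1
    have h2 : dm E₀ e (x 0) (w 0) = τ ^ n • dm E₀ e (x 0) (dg E₀ (f^[n]) (x n) (w n)) := by
      rw [← map_smul, ← hwn n]
    rw [h2, norm_smul, Real.norm_eq_abs, abs_of_nonneg (pow_nonneg hτ.1 n)]
    have h3 : τ ^ n ≤ 1 := pow_le_one₀ hτ.1 hτ.2
    have h4 : 0 ≤ C * a ^ n := mul_nonneg hC (pow_nonneg h.a_pos.le n)
    calc τ ^ n * ‖dm E₀ e (x 0) (dg E₀ (f^[n]) (x n) (w n))‖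
        ≤ 1 * (C * a ^ n * ‖dm E₀ e (x n) (w n)‖) :=
          mul_le_mul h3 h1 (norm_nonneg _) zero_le_one
      _ ≤ C * a ^ n * B := by rw [one_mul]; exact mul_le_mul_of_nonneg_left (hB n) h4
  have ht : Tendsto (fun n : ℕ => C * a ^ n * B) atTop (𝓝 0) := by
    have := ((tendsto_pow_atTop_nhds_zero_of_lt_one h.a_pos.le h.a_lt).const_mul C).mul_const B
    simpa using this
  have h0 : ‖dm E₀ e (x 0) (w 0)‖ ≤ 0 := ge_of_tendsto' ht hle
  have h1 : dm E₀ e (x 0) (w 0) = 0 := norm_le_zero_iff.1 h0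
  exact hinj (x 0) (by rw [h1, map_zero])

variable {m : ℕ} [NeZero m]

theorem decay_s (h : EAnosov e f Es Eu C a b Ls Lu) (hinj : ∀ x, Function.Injective (dm E₀ e x))
    {x : ZMod m → M} {w : ZMod m → E₀} {τ : ℝ} (hτ : τ ∈ Icc (0 : ℝ) 1)
    (hx : ∀ j, f (x (j - 1)) = x j) (hw : ∀ j, w j = τ • dg E₀ f (x (j - 1)) (w (j - 1)))
    (hm : ∀ j, w j ∈ Es (x j)) : w = 0 := by
  funext j
  have key := decay h hinj (x := fun n : ℕ => x (j - n)) (w := fun n : ℕ => w (j - n)) (τ := τ)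
    (B := ∑ i, ‖dm E₀ e (x i) (w i)‖) hτ (by
      intro n
      have : j - ((n + 1 : ℕ) : ZMod m) = (j - n) - 1 := by push_cast; ring
      rw [this, hx]) (by
      intro n
      have : j - ((n + 1 : ℕ) : ZMod m) = (j - n) - 1 := by push_cast; ring
      simp only [this]
      exact hw _) (fun n => hm _) (by
      intro n
      exact Finset.single_le_sum (f := fun i => ‖dm E₀ e (x i) (w i)‖)
        (fun i _ => norm_nonneg _) (Finset.mem_univ _))
  simpa using key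

theorem decay_u (h : EAnosov e f Es Eu C a b Ls Lu) (hinj : ∀ x, Function.Injective (dm E₀ e x))
    {x : ZMod m → M} {w : ZMod m → E₀} {τ : ℝ} (hτ : τ ∈ Icc (0 : ℝ) 1)
    (hx : ∀ j, f (x (j - 1)) = x j) (hw : ∀ j, dg E₀ f (x (j - 1)) (w (j - 1)) = τ • w j)
    (hm : ∀ j, w j ∈ Eu (x j)) : w = 0 := by
  funext j
  have hx' : ∀ j, f.symm (x (j + 1)) = x j := by
    intro j
    have := hx (j + 1)
    rw [add_sub_cancel_right] at this
    rw [← this, Homeomorph.symm_apply_apply]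
  have hw' : ∀ j, w j = τ • dg E₀ f.symm (x (j + 1)) (w (j + 1)) := by
    intro j
    have h1 := hw (j + 1)
    have h2 := hx (j + 1)
    rw [add_sub_cancel_right] at h1 h2
    rw [← map_smul, ← h1, ← h2]
    exact (dg_inv f f.symm h.smooth h.smooth' (fun x => f.symm_apply_apply x) _ _).symm
  have key := decay h.symm hinj (x := fun n : ℕ => x (j + n)) (w := fun n : ℕ => w (j + n))
    (τ := τ) (B := ∑ i, ‖dm E₀ e (x i) (w i)‖) hτ (by
      intro n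
      have : j + ((n + 1 : ℕ) : ZMod m) = (j + n) + 1 := by push_cast; ring
      rw [this, hx']) (by
      intro n
      have : j + ((n + 1 : ℕ) : ZMod m) = (j + n) + 1 := by push_cast; ring
      simp only [this]
      exact hw' _) (fun n => hm _) (by
      intro n
      exact Finset.single_le_sum (f := fun i => ‖dm E₀ e (x i) (w i)‖)
        (fun i _ => norm_nonneg _) (Finset.mem_univ _))
  simpa using key

/-- `dg f` commutes with the projections. -/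
theorem dg_Pj [FiniteDimensional ℝ E₀] (h : EAnosov e f Es Eu C a b Ls Lu) (x : M) (v : E₀) :
    dg E₀ f x (Pj (h.compl x) v) = Pj (h.compl (f x)) (dg E₀ f x v) := by
  symm
  apply Pj_eq (s := dg E₀ f x (v - Pj (h.compl x) v))
  · exact h.mapS 1 x _ (Pj_sub _ _)
  · exact h.mapU 1 x _ (Pj_mem _ _)
  · rw [← map_add, sub_add_cancel]

theorem Pj_congr [FiniteDimensional ℝ E₀] {Es Eu : M → Submodule ℝ E₀}
    (hc : ∀ x, IsCompl (Es x) (Eu x)) {x y : M} (h : x = y) : Pj (hc x) = Pj (hc y) := by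
  subst h; rfl

/-- A periodic tangent vector along a periodic orbit is zero. -/
theorem no_per [FiniteDimensional ℝ E₀] (h : EAnosov e f Es Eu C a b Ls Lu)
    (hinj : ∀ x, Function.Injective (dm E₀ e x))
    {x : ZMod m → M} {w : ZMod m → E₀}
    (hx : ∀ j, f (x (j - 1)) = x j) (hw : ∀ j, w j = dg E₀ f (x (j - 1)) (w (j - 1))) :
    w = 0 := by
  have hu : (fun j => Pj (h.compl (x j)) (w j)) = 0 := by
    apply decay_u h hinj (x := x) (τ := 1) ⟨zero_le_one, le_rfl⟩ hx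
    · intro j
      rw [dg_Pj h, ← hw, one_smul, Pj_congr h.compl (hx j)]
    · intro j
      exact Pj_mem _ _
  have hs : (fun j => w j - Pj (h.compl (x j)) (w j)) = 0 := by
    apply decay_s h hinj (x := x) (τ := 1) ⟨zero_le_one, le_rfl⟩ hx
    · intro j
      rw [one_smul, map_sub, dg_Pj h, ← hw, Pj_congr h.compl (hx j)]
    · intro j
      exact Pj_sub _ _
  funext j
  have h1 := congrFun hu j
  have h2 := congrFun hs j
  simp only [Pi.zero_apply] at h1 h2 ⊢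
  rw [h1, sub_zero] at h2
  exact h2

end decay

section uc

variable {E₀ : Type*} [NormedAddCommGroup E₀] [NormedSpace ℝ E₀] [FiniteDimensional ℝ E₀]
  {M : Type*} [MetricSpace M] [CompactSpace M] [ChartedSpace E₀ M]

/-- a uniform family of charts -/
structure UC (E₀ : Type*) [NormedAddCommGroup E₀] [NormedSpace ℝ E₀]
    {M : Type*} [MetricSpace M] [ChartedSpace E₀ M] (R : ℝ) (a : M → M) : Prop where
  pos : 0 < R
  src : ∀ q, q ∈ (extChartAt 𝓘(ℝ, E₀) (a q)).source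
  tgt : ∀ q, Metric.closedBall (extChartAt 𝓘(ℝ, E₀) (a q) q) R ⊆ (extChartAt 𝓘(ℝ, E₀) (a q)).target
  u1 : ∀ ε > 0, ∃ ρ > 0, ∀ q, ∀ z ∈ Metric.closedBall (extChartAt 𝓘(ℝ, E₀) (a q) q) R,
    ∀ z' ∈ Metric.closedBall (extChartAt 𝓘(ℝ, E₀) (a q) q) R, dist z z' < ρ →
      dist ((extChartAt 𝓘(ℝ, E₀) (a q)).symm z) ((extChartAt 𝓘(ℝ, E₀) (a q)).symm z') < ε
  u2 : ∀ κ > 0, ∃ δ > 0, ∀ q, ∀ z ∈ Metric.closedBall (extChartAt 𝓘(ℝ, E₀) (a q) q) R, ∀ x',
    dist ((extChartAt 𝓘(ℝ, E₀) (a q)).symm z) x' < δ →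
      x' ∈ (extChartAt 𝓘(ℝ, E₀) (a q)).source ∧ dist z (extChartAt 𝓘(ℝ, E₀) (a q) x') < κ

theorem exists_UC : ∃ (R : ℝ) (a : M → M), UC E₀ R a := by
  have h1 : ∀ x₀ : M, ∃ R₀ > 0, Metric.closedBall (extChartAt 𝓘(ℝ, E₀) x₀ x₀) (2 * R₀) ⊆
      (extChartAt 𝓘(ℝ, E₀) x₀).target := by
    intro x₀
    obtain ⟨r, hr, h⟩ := Metric.isOpen_iff.1 (isOpen_extChartAt_target (I := 𝓘(ℝ, E₀)) x₀) _
      (mem_extChartAt_target (I := 𝓘(ℝ, E₀)) x₀)
    exact ⟨r / 4, by positivity, (Metric.closedBall_subset_ball (by linarith)).trans h⟩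
  choose R₀ hR₀ hsub using h1
  set W : M → Set M := fun x₀ => (extChartAt 𝓘(ℝ, E₀) x₀).source ∩
    (extChartAt 𝓘(ℝ, E₀) x₀) ⁻¹' Metric.ball (extChartAt 𝓘(ℝ, E₀) x₀ x₀) (R₀ x₀) with hW
  have hWn : ∀ x₀, W x₀ ∈ 𝓝 x₀ := by
    intro x₀
    refine inter_mem (extChartAt_source_mem_nhds x₀) ?_
    exact (continuousAt_extChartAt x₀).preimage_mem_nhds (Metric.ball_mem_nhds _ (hR₀ x₀))
  obtain ⟨T, hT⟩ := CompactSpace.elim_nhds_subcover W hWn
  have hex : ∀ q : M, ∃ x₀ ∈ T, q ∈ W x₀ := by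
    intro q
    have : q ∈ ⋃ x ∈ T, W x := by rw [hT]; exact mem_univ q
    simpa using this
  choose a haT haW using hex
  obtain ⟨R, hR, hRT⟩ := fin_min T (fun x₀ ρ => ρ ≤ R₀ x₀) (fun x₀ ρ ρ' _ h1 h2 => h1.trans h2)
    (fun x₀ _ => ⟨R₀ x₀, hR₀ x₀, le_rfl⟩)
  have hball : ∀ q, Metric.closedBall (extChartAt 𝓘(ℝ, E₀) (a q) q) R ⊆
      Metric.closedBall (extChartAt 𝓘(ℝ, E₀) (a q) (a q)) (2 * R₀ (a q)) := by
    intro q z hz
    have h2 : dist (extChartAt 𝓘(ℝ, E₀) (a q) q) (extChartAt 𝓘(ℝ, E₀) (a q) (a q)) < R₀ (a q) :=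
      (haW q).2
    have h3 := hRT (a q) (haT q)
    rw [Metric.mem_closedBall] at hz ⊢
    have h4 := dist_triangle z (extChartAt 𝓘(ℝ, E₀) (a q) q) (extChartAt 𝓘(ℝ, E₀) (a q) (a q))
    linarith
  refine ⟨R, a, ⟨hR, fun q => (haW q).1, fun q => (hball q).trans (hsub _), ?_, ?_⟩⟩
  · intro ε hε
    obtain ⟨ρ, hρ, h2⟩ := fin_min T (fun x₀ ρ => ∀ z ∈ Metric.closedBall (extChartAt 𝓘(ℝ, E₀) x₀ x₀)
      (2 * R₀ x₀), ∀ z' ∈ Metric.closedBall (extChartAt 𝓘(ℝ, E₀) x₀ x₀) (2 * R₀ x₀),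
        dist z z' < ρ → dist ((extChartAt 𝓘(ℝ, E₀) x₀).symm z)
          ((extChartAt 𝓘(ℝ, E₀) x₀).symm z') < ε)
      (fun x₀ ρ ρ' _ h1 h2 z hz z' hz' hd => h2 z hz z' hz' (hd.trans_le h1)) (by
        intro x₀ _
        have h3 := (isCompact_closedBall (extChartAt 𝓘(ℝ, E₀) x₀ x₀)
          (2 * R₀ x₀)).uniformContinuousOn_of_continuous
          ((continuousOn_extChartAt_symm (I := 𝓘(ℝ, E₀)) x₀).mono (hsub x₀))
        obtain ⟨δ, hδ, h4⟩ := Metric.uniformContinuousOn_iff.1 h3 ε hε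
        exact ⟨δ, hδ, fun z hz z' hz' hd => h4 z hz z' hz' hd⟩)
    exact ⟨ρ, hρ, fun q z hz z' hz' hd => h2 (a q) (haT q) z (hball q hz) z' (hball q hz') hd⟩
  · intro κ hκ
    obtain ⟨δ, hδ, h2⟩ := fin_min T (fun x₀ δ => ∀ z ∈ Metric.closedBall (extChartAt 𝓘(ℝ, E₀) x₀ x₀)
      (2 * R₀ x₀), ∀ x', dist ((extChartAt 𝓘(ℝ, E₀) x₀).symm z) x' < δ →
        x' ∈ (extChartAt 𝓘(ℝ, E₀) x₀).source ∧ dist z (extChartAt 𝓘(ℝ, E₀) x₀ x') < κ)
      (fun x₀ ρ ρ' _ h1 h2 z hz x' hd => h2 z hz x' (hd.trans_le h1)) (by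
        intro x₀ _
        set K := (extChartAt 𝓘(ℝ, E₀) x₀).symm '' Metric.closedBall (extChartAt 𝓘(ℝ, E₀) x₀ x₀)
          (2 * R₀ x₀) with hK
        have hKc : IsCompact K := (isCompact_closedBall _ _).image_of_continuousOn
          ((continuousOn_extChartAt_symm (I := 𝓘(ℝ, E₀)) x₀).mono (hsub x₀))
        have hKs : K ⊆ (extChartAt 𝓘(ℝ, E₀) x₀).source := by
          rintro _ ⟨z, hz, rfl⟩
          exact (extChartAt 𝓘(ℝ, E₀) x₀).map_target (hsub x₀ hz)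
        obtain ⟨δ1, hδ1, h3⟩ := hKc.exists_thickening_subset_open
          (isOpen_extChartAt_source (I := 𝓘(ℝ, E₀)) x₀) hKs
        have h4 := hKc.uniformContinuousAt_of_continuousAt (extChartAt 𝓘(ℝ, E₀) x₀)
          (fun x hx => (continuousOn_extChartAt (I := 𝓘(ℝ, E₀)) x₀).continuousAt
            ((isOpen_extChartAt_source (I := 𝓘(ℝ, E₀)) x₀).mem_nhds (hKs hx)))
          (Metric.dist_mem_uniformity hκ)
        obtain ⟨δ2, hδ2, h5⟩ := Metric.mem_uniformity_dist.1 h4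
        refine ⟨min δ1 δ2, lt_min hδ1 hδ2, fun z hz x' hd => ?_⟩
        have hzK : (extChartAt 𝓘(ℝ, E₀) x₀).symm z ∈ K := ⟨z, hz, rfl⟩
        constructor
        · apply h3
          rw [Metric.mem_thickening_iff]
          exact ⟨_, hzK, by rw [dist_comm]; exact hd.trans_le (min_le_left _ _)⟩
        · have h6 := h5 (hd.trans_le (min_le_right _ _)) hzK
          have h7 : dist (extChartAt 𝓘(ℝ, E₀) x₀ ((extChartAt 𝓘(ℝ, E₀) x₀).symm z))
            (extChartAt 𝓘(ℝ, E₀) x₀ x') < κ := h6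
          rwa [(extChartAt 𝓘(ℝ, E₀) x₀).right_inv (hsub x₀ hz)] at h7)
    exact ⟨δ, hδ, fun q z hz x' hd => h2 (a q) (haT q) z (hball q hz) x' hd⟩

end uc

end Pool.Agent.V5helper18.Ma
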