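import Pool.Agent.V5helper18.Ma.B

/-!
# The index count: unique continuation of periodic orbits
-/

set_option autoImplicit false
set_option linter.unusedSectionVars false

open scoped Manifold ContDiff Topology
open Set Filter Metric

namespace Pool.Agent.V5helper18.Ma

open Pool.Agent.H721R2 Pool.Agent.Y331.EP Pool.Agent.V5helper18.Ch

section cyc

variable {X : Type*} {m : ℕ} [NeZero m]

theorem zorb_nat {F : X → X} {p : X} (hp : F^[m] p = p) (n : ℕ) :
    F^[((n : ZMod m)).val] p = F^[n] p := by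
  rw [ZMod.val_natCast]
  exact Function.IsPeriodicPt.iterate_mod_apply (show Function.IsPeriodicPt F m p from hp) n

theorem zorb {F : X → X} {p : X} (hp : F^[m] p = p) (j : ZMod m) :
    F (F^[(j - 1).val] p) = F^[j.val] p := by
  rw [← Function.iterate_succ_apply' F]
  have h1 : j = (((j - 1).val + 1 : ℕ) : ZMod m) := by
    push_cast
    rw [ZMod.natCast_zmod_val]
    ring
  conv_rhs => rw [h1]
  rw [zorb_nat hp]

theorem iter_zmod {F : X → X} {x : ZMod m → X} (hx : ∀ j, F (x (j - 1)) = x j) (n : ℕ) :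
    F^[n] (x 0) = x n := by
  induction n with
  | zero => simp
  | succ n ih =>
    rw [Function.iterate_succ_apply', ih]
    have := hx ((n : ZMod m) + 1)
    rw [add_sub_cancel_right] at this
    rw [this]
    push_cast
    rfl

theorem iter_zmod_per {F : X → X} {x : ZMod m → X} (hx : ∀ j, F (x (j - 1)) = x j) :
    F^[m] (x 0) = x 0 := by
  rw [iter_zmod hx]
  simp

end cyc

theorem key_claim {X : Type*} [MetricSpace X] {g : X ≃ₜ X} {c₀ β δ : ℝ} (hEx : Ex g c₀)
    (hβ : β ≤ c₀ / 2)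
    (hsh : ∀ x : ℤ → X, (∀ n, dist (g (x n)) (x (n + 1)) ≤ δ) →
      ∃ y, Orb g y ∧ ∀ n, dist (x n) (y n) ≤ β)
    {m : ℕ} [NeZero m] {x Q : ZMod m → X} (hQ : ∀ j, g (Q (j - 1)) = Q j)
    (hx : ∀ j, dist (g (x (j - 1))) (x j) ≤ δ) (hxQ : ∀ j, dist (x j) (Q j) ≤ c₀ / 2) (j : ZMod m) :
    dist (x j) (Q j) ≤ β := by
  obtain ⟨y, hy, hyd⟩ := hsh (fun n : ℤ => x (n : ZMod m)) fun n => by
    have := hx ((n : ZMod m) + 1)
    rw [add_sub_cancel_right] at this
    push_cast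
    exact this
  have hQo : Orb g fun n : ℤ => Q (n : ZMod m) := fun n => by
    have := hQ ((n : ZMod m) + 1)
    rw [add_sub_cancel_right] at this
    push_cast
    exact this.symm
  set t : ℤ := (j.val : ℤ) with ht
  have htj : ((t : ℤ) : ZMod m) = j := by
    rw [ht]; simp
  have h1 := hEx.exp _ _ (orb_shift hy t) (orb_shift hQo t) fun n => by
    have h2 := hyd (t + n)
    have h3 := hxQ ((t + n : ℤ) : ZMod m)
    have h4 := dist_triangle_left (y (t + n)) (Q ((t + n : ℤ) : ZMod m)) (x ((t + n : ℤ) : ZMod m))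
    linarith
  simp only [add_zero] at h1
  have h2 := hyd t
  rw [h1] at h2
  simp only [htj] at h2
  exact h2

section main

variable {E₀ : Type*} [NormedAddCommGroup E₀] [NormedSpace ℝ E₀] [FiniteDimensional ℝ E₀]
  {M : Type*} [MetricSpace M] [CompactSpace M] [ChartedSpace E₀ M] [IsManifold 𝓘(ℝ, E₀) 1 M]
  {F : Type*} [NormedAddCommGroup F] [NormedSpace ℝ F]

theorem per_unique (e : M → F) (he : ContMDiff 𝓘(ℝ, E₀) 𝓘(ℝ, F) 1 e)
    (hinj : ∀ x, Function.Injective (dm E₀ e x)) {g : M ≃ₜ M} {Es' Eu' : M → Submodule ℝ E₀}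
    {C' a' b' Ls' Lu' : ℝ} (hg : EAnosov e g Es' Eu' C' a' b' Ls' Lu') {c₀ : ℝ} (hEx : Ex g c₀)
    (hSh : Shad g) :
    ∃ ρ₀ > 0, ∀ ρ > 0, ρ ≤ ρ₀ → ∃ ε > 0, ∀ (f : M ≃ₜ M) (Es Eu : M → Submodule ℝ E₀)
      (C a b Ls Lu : ℝ), EAnosov e f Es Eu C a b Ls Lu → (∀ x, dist (f x) (g x) < ε) →
      ∀ m : ℕ, 1 ≤ m → ∀ q, g^[m] q = q → ∃ p, f^[m] p = p ∧
        (∀ i, dist (f^[i] p) (g^[i] q) < ρ) ∧
        ∀ p', f^[m] p' = p' → (∀ i, dist (f^[i] p') (g^[i] q) < ρ₀) → p' = p := by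
  obtain ⟨R, aa, uc⟩ := exists_UC (E₀ := E₀) (M := M)
  have hR := uc.pos
  have hc₀ := hEx.pos
  -- constants
  obtain ⟨δ₂, hδ₂, hu2⟩ := uc.u2 (R / 4) (by positivity)
  have hguc : UniformContinuous g := CompactSpace.uniformContinuous_of_continuous g.continuous
  obtain ⟨η₂, hη₂, hg2⟩ := Metric.uniformContinuous_iff.1 hguc (δ₂ / 2) (half_pos hδ₂)
  obtain ⟨ρ₁, hρ₁, hu1⟩ := uc.u1 (min (c₀ / 2) η₂) (lt_min (half_pos hc₀) hη₂)
  set r := min (R / 8) (ρ₁ / 4) with hr
  have hr0 : 0 < r := lt_min (by positivity) (by positivity)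
  have hr1 : r ≤ R / 8 := min_le_left _ _
  have hr2 : r ≤ ρ₁ / 4 := min_le_right _ _
  obtain ⟨ρ₀, hρ₀, hu3⟩ := uc.u2 r hr0
  refine ⟨ρ₀, hρ₀, fun ρ hρ hρρ => ?_⟩
  set β := min (ρ / 2) (c₀ / 2) with hβ
  have hβ0 : 0 < β := lt_min (by positivity) (by positivity)
  have hβ1 : β ≤ ρ / 2 := min_le_left _ _
  have hβ2 : β ≤ c₀ / 2 := min_le_right _ _
  obtain ⟨δs, hδs, hsh⟩ := hSh β hβ0
  obtain ⟨κ₁, hκ₁, hu4⟩ := uc.u1 δs hδs
  obtain ⟨δ₃, hδ₃, hu5⟩ := uc.u2 κ₁ hκ₁
  refine ⟨min (min (δ₂ / 2) δ₃) δs, lt_min (lt_min (half_pos hδ₂) hδ₃) hδs, ?_⟩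
  intro f Es Eu C a b Ls Lu hf hfg m hm q hq
  have hfg1 : ∀ x, dist (f x) (g x) < δ₂ / 2 := fun x =>
    (hfg x).trans_le ((min_le_left _ _).trans (min_le_left _ _))
  have hfg2 : ∀ x, dist (f x) (g x) < δ₃ := fun x =>
    (hfg x).trans_le ((min_le_left _ _).trans (min_le_right _ _))
  have hfg3 : ∀ x, dist (f x) (g x) < δs := fun x => (hfg x).trans_le (min_le_right _ _)
  haveI : NeZero m := ⟨by omega⟩
  set Q : ZMod m → M := fun j => g^[j.val] q with hQ
  have hQg : ∀ j, g (Q (j - 1)) = Q j := fun j => zorb hq j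
  -- charts
  set c : ZMod m → E₀ := fun j => (extChartAt 𝓘(ℝ, E₀) (aa (Q j))) (Q j) with hc
  have hsymc : ∀ j, (extChartAt 𝓘(ℝ, E₀) (aa (Q j))).symm (c j) = Q j := fun j => (extChartAt 𝓘(ℝ, E₀) (aa (Q j))).left_inv (uc.src _)
  have htgt : ∀ j, closedBall (c j) R ⊆ (extChartAt 𝓘(ℝ, E₀) (aa (Q j))).target := fun j => uc.tgt (Q j)
  have hcR : ∀ j, c j ∈ closedBall (c j) R := fun j => mem_closedBall_self hR.le
  have hle2 : ∀ j, closedBall (c j) (2 * r) ⊆ closedBall (c j) R := fun j =>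
    closedBall_subset_closedBall (by linarith)
  have hle1 : ∀ j, closedBall (c j) r ⊆ closedBall (c j) (2 * r) := fun j =>
    closedBall_subset_closedBall (by linarith)
  -- points in the boxes
  have hbox : ∀ j, ∀ z ∈ closedBall (c j) (2 * r),
      dist ((extChartAt 𝓘(ℝ, E₀) (aa (Q j))).symm z) (Q j) < min (c₀ / 2) η₂ := by
    intro j z hz
    have h1 := hu1 (Q j) z (hle2 j hz) (c j) (hcR j) (by
      rw [mem_closedBall] at hz
      linarith)
    rwa [hsymc] at h1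
  have himg : ∀ j, ∀ z ∈ closedBall (c (j - 1)) (2 * r),
      (g (((extChartAt 𝓘(ℝ, E₀) (aa (Q (j - 1))))).symm z) ∈ (extChartAt 𝓘(ℝ, E₀) (aa (Q j))).source ∧
        dist (c j) ((extChartAt 𝓘(ℝ, E₀) (aa (Q j))) (g (((extChartAt 𝓘(ℝ, E₀) (aa (Q (j - 1))))).symm z))) < R / 4) ∧
      (f (((extChartAt 𝓘(ℝ, E₀) (aa (Q (j - 1))))).symm z) ∈ (extChartAt 𝓘(ℝ, E₀) (aa (Q j))).source ∧
        dist (c j) ((extChartAt 𝓘(ℝ, E₀) (aa (Q j))) (f (((extChartAt 𝓘(ℝ, E₀) (aa (Q (j - 1))))).symm z))) < R / 4) := by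
    intro j z hz
    have h1 := (hbox (j - 1) z hz).trans_le (min_le_right _ _)
    have h2 := hg2 h1
    rw [hQg] at h2
    have h3 := hfg1 (((extChartAt 𝓘(ℝ, E₀) (aa (Q (j - 1))))).symm z)
    constructor
    · apply hu2 (Q j) (c j) (hcR j)
      rw [hsymc, dist_comm]
      linarith
    · apply hu2 (Q j) (c j) (hcR j)
      rw [hsymc, dist_comm]
      have := dist_triangle (f (((extChartAt 𝓘(ℝ, E₀) (aa (Q (j - 1))))).symm z)) (g (((extChartAt 𝓘(ℝ, E₀) (aa (Q (j - 1))))).symm z)) (Q j)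
      linarith
  -- the chain data
  set Fm : ZMod m → E₀ → E₀ := fun j => hat E₀ (aa (Q (j - 1))) (aa (Q j)) f with hFm
  set Gm : ZMod m → E₀ → E₀ := fun j => hat E₀ (aa (Q (j - 1))) (aa (Q j)) g with hGm
  have hball2 : ∀ j, ball (c j) r ⊆ closedBall (c j) (2 * r) := fun j =>
    ball_subset_closedBall.trans (hle1 j)
  -- chains are orbits
  have chainF : ∀ y : ZMod m → E₀, (∀ j, y j ∈ closedBall (c j) (2 * r)) →
      (∀ j, Fm j (y (j - 1)) = y j) →
        ∀ j, f (((extChartAt 𝓘(ℝ, E₀) (aa (Q (j - 1))))).symm (y (j - 1))) = (extChartAt 𝓘(ℝ, E₀) (aa (Q j))).symm (y j) := by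
    intro y hy hch j
    rw [← hch j]
    exact ((extChartAt 𝓘(ℝ, E₀) (aa (Q j))).left_inv (himg j _ (hy _)).2.1).symm
  have chainG : ∀ y : ZMod m → E₀, (∀ j, y j ∈ closedBall (c j) (2 * r)) →
      (∀ j, Gm j (y (j - 1)) = y j) →
        ∀ j, g (((extChartAt 𝓘(ℝ, E₀) (aa (Q (j - 1))))).symm (y (j - 1))) = (extChartAt 𝓘(ℝ, E₀) (aa (Q j))).symm (y j) := by
    intro y hy hch j
    rw [← hch j]
    exact ((extChartAt 𝓘(ℝ, E₀) (aa (Q j))).left_inv (himg j _ (hy _)).1.1).symm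
  have hcoord : ∀ y ∈ ball c r, ∀ j, y j ∈ closedBall (c j) (2 * r) := by
    intro y hy j
    apply hball2
    rw [mem_ball] at hy ⊢
    exact (dist_le_pi_dist y c j).trans_lt hy
  have hcoord' : ∀ y ∈ closedBall c r, ∀ j, y j ∈ closedBall (c j) (2 * r) := by
    intro y hy j
    apply hle1
    rw [mem_closedBall] at hy ⊢
    exact (dist_le_pi_dist y c j).trans hy
  -- points near Q
  have hnear : ∀ x : ZMod m → M, (∀ j, dist (x j) (Q j) < ρ₀) →
      (∀ j, x j ∈ (extChartAt 𝓘(ℝ, E₀) (aa (Q j))).source) ∧ (fun j => (extChartAt 𝓘(ℝ, E₀) (aa (Q j))) (x j)) ∈ ball c r := by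
    intro x hx
    have h1 : ∀ j, x j ∈ (extChartAt 𝓘(ℝ, E₀) (aa (Q j))).source ∧ dist (c j) ((extChartAt 𝓘(ℝ, E₀) (aa (Q j))) (x j)) < r := by
      intro j
      apply hu3 (Q j) (c j) (hcR j)
      rw [hsymc, dist_comm]
      exact hx j
    refine ⟨fun j => (h1 j).1, ?_⟩
    rw [mem_ball, dist_pi_lt_iff hr0]
    intro j
    rw [dist_comm]
    exact (h1 j).2
  -- derivative
  have hderF : ∀ j, ∀ z ∈ closedBall (c (j - 1)) (2 * r), ∀ v, fderiv ℝ (Fm j) z v =
      J E₀ (aa (Q j)) (f (((extChartAt 𝓘(ℝ, E₀) (aa (Q (j - 1))))).symm z)) (dg E₀ f (((extChartAt 𝓘(ℝ, E₀) (aa (Q (j - 1))))).symm z)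
        (T (aa (Q (j - 1))) z v)) := fun j z hz v =>
    hat_fderiv hf.smooth _ _ (htgt _ (hle2 _ hz)) (himg j z hz).2.1 v
  have hderG : ∀ j, ∀ z ∈ closedBall (c (j - 1)) (2 * r), ∀ v, fderiv ℝ (Gm j) z v =
      J E₀ (aa (Q j)) (g (((extChartAt 𝓘(ℝ, E₀) (aa (Q (j - 1))))).symm z)) (dg E₀ g (((extChartAt 𝓘(ℝ, E₀) (aa (Q (j - 1))))).symm z)
        (T (aa (Q (j - 1))) z v)) := fun j z hz v =>
    hat_fderiv hg.smooth _ _ (htgt _ (hle2 _ hz)) (himg j z hz).1.1 v
  have hpr : Function.Surjective (fun j : ZMod m => j - 1) := fun j => ⟨j + 1, by ring⟩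
  have hTz : ∀ j, ∀ z ∈ closedBall (c j) (2 * r), ∀ v, T (aa (Q j)) z v = 0 → v = 0 := by
    intro j z hz v hv
    have := J_T (aa (Q j)) (htgt j (hle2 j hz)) v
    rw [hv, map_zero] at this
    exact this.symm
  obtain ⟨y, hyb, hych, hyu⟩ := chain_unique (pr := fun j : ZMod m => j - 1) hpr (c := c)
    (r := r) (R := R) hr0 (by linarith) (P := fun j => PC hf.compl (aa (Q j))) (F := Fm) (G := Gm)
    (Ω := fun j => ball (c j) (2 * r)) (fun j => isOpen_ball)
    (fun j => closedBall_subset_ball (by linarith))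
    (fun j => (PC_cont e he hinj hf (aa (Q j))).mono (htgt j))
    (fun j z hz => PC_idem hf.compl (aa (Q j)) (htgt j hz))
    (by
      intro j z hz
      apply ContDiffAt.contDiffWithinAt
      exact hat_contDiffAt hf.smooth _ _ (htgt _ (hle2 _ (ball_subset_closedBall hz)))
        (himg j z (ball_subset_closedBall hz)).2.1)
    (by
      intro j z hz
      apply ContDiffAt.contDiffWithinAt
      exact hat_contDiffAt hg.smooth _ _ (htgt _ (hle2 _ (ball_subset_closedBall hz)))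
        (himg j z (ball_subset_closedBall hz)).1.1)
    (by
      intro j z hz
      rw [mem_closedBall, dist_comm]
      have := (himg j z (hball2 _ hz)).2.2
      show dist (c j) ((extChartAt 𝓘(ℝ, E₀) (aa (Q j))) (f (((extChartAt 𝓘(ℝ, E₀) (aa (Q (j - 1))))).symm z))) ≤ R
      linarith)
    (by
      intro j z hz v hv
      rw [hderF j z (hball2 _ hz)] at hv
      have h1 := T_J (aa (Q j)) (himg j z (hball2 _ hz)).2.1
        (dg E₀ f (((extChartAt 𝓘(ℝ, E₀) (aa (Q (j - 1))))).symm z) (T (aa (Q (j - 1))) z v))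
      rw [hv, map_zero] at h1
      have h2 := dg_inv f f.symm hf.smooth hf.smooth' (fun x => f.symm_apply_apply x)
        (((extChartAt 𝓘(ℝ, E₀) (aa (Q (j - 1))))).symm z) (T (aa (Q (j - 1))) z v)
      rw [← h1, map_zero] at h2
      exact hTz _ z (hball2 _ hz) v h2.symm)
    (by
      intro j z hz v
      have hz2 := hball2 _ hz
      rw [hderF j z hz2, hderF j z hz2, T_PC hf.compl _ (htgt _ (hle2 _ hz2)), dg_Pj hf]
      have h1 : (extChartAt 𝓘(ℝ, E₀) (aa (Q j))).symm (Fm j z) = f (((extChartAt 𝓘(ℝ, E₀) (aa (Q (j - 1))))).symm z) :=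
        (extChartAt 𝓘(ℝ, E₀) (aa (Q j))).left_inv (himg j z hz2).2.1
      have h2 : T (aa (Q j)) (Fm j z) (J E₀ (aa (Q j)) (f (((extChartAt 𝓘(ℝ, E₀) (aa (Q (j - 1))))).symm z))
        (dg E₀ f (((extChartAt 𝓘(ℝ, E₀) (aa (Q (j - 1))))).symm z) (T (aa (Q (j - 1))) z v))) =
          dg E₀ f (((extChartAt 𝓘(ℝ, E₀) (aa (Q (j - 1))))).symm z) (T (aa (Q (j - 1))) z v) :=
        T_J (aa (Q j)) (himg j z hz2).2.1 _
      rw [PC_apply, h2, h1])
    (by
      intro y hy hch τ hτ v hv1 hv2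
      have hy2 := hcoord y hy
      have hor := chainF y hy2 hch
      have hw := decay_s hf hinj (x := fun j => (extChartAt 𝓘(ℝ, E₀) (aa (Q j))).symm (y j))
        (w := fun j => T (aa (Q j)) (y j) (v j)) hτ hor (by
          intro j
          have h1 := hv2 j
          rw [hderF j _ (hy2 _)] at h1
          have h2 := congrArg (T (aa (Q j)) (y j)) h1
          rw [map_smul] at h2
          rw [h2]
          congr 1
          have h3 := T_J (aa (Q j)) (himg j _ (hy2 _)).2.1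
            (dg E₀ f (((extChartAt 𝓘(ℝ, E₀) (aa (Q (j - 1))))).symm (y (j - 1))) (T (aa (Q (j - 1))) (y (j - 1))
              (v (j - 1))))
          have h4 : (extChartAt 𝓘(ℝ, E₀) (aa (Q j))) (f (((extChartAt 𝓘(ℝ, E₀) (aa (Q (j - 1))))).symm (y (j - 1)))) = y j := hch j
          rw [h4] at h3
          exact h3) (by
          intro j
          have h1 := hv1 j
          have h2 := T_PC hf.compl (aa (Q j)) (htgt j (hle2 j (hy2 j))) (v j)
          rw [h1, map_zero] at h2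
          have h3 := Pj_sub (hf.compl ((extChartAt 𝓘(ℝ, E₀) (aa (Q j))).symm (y j))) (T (aa (Q j)) (y j) (v j))
          rw [← h2, sub_zero] at h3
          exact h3)
      funext j
      exact hTz j _ (hy2 j) _ (congrFun hw j))
    (by
      intro y hy hch τ hτ v hv1 hv2
      have hy2 := hcoord y hy
      have hor := chainF y hy2 hch
      have hw := decay_u hf hinj (x := fun j => (extChartAt 𝓘(ℝ, E₀) (aa (Q j))).symm (y j))
        (w := fun j => T (aa (Q j)) (y j) (v j)) hτ hor (by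
          intro j
          have h1 := hv2 j
          rw [hderF j _ (hy2 _)] at h1
          have h2 := congrArg (T (aa (Q j)) (y j)) h1
          rw [map_smul] at h2
          rw [← h2]
          have h3 := T_J (aa (Q j)) (himg j _ (hy2 _)).2.1
            (dg E₀ f (((extChartAt 𝓘(ℝ, E₀) (aa (Q (j - 1))))).symm (y (j - 1))) (T (aa (Q (j - 1))) (y (j - 1))
              (v (j - 1))))
          have h4 : (extChartAt 𝓘(ℝ, E₀) (aa (Q j))) (f (((extChartAt 𝓘(ℝ, E₀) (aa (Q (j - 1))))).symm (y (j - 1)))) = y j := hch j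
          rw [h4] at h3
          exact h3.symm) (by
          intro j
          have h1 := hv1 j
          have h2 := T_PC hf.compl (aa (Q j)) (htgt j (hle2 j (hy2 j))) (v j)
          rw [h1] at h2
          show T (aa (Q j)) (y j) (v j) ∈ _
          rw [h2]
          exact Pj_mem _ _)
      funext j
      exact hTz j _ (hy2 j) _ (congrFun hw j))
    (by
      intro j
      show (extChartAt 𝓘(ℝ, E₀) (aa (Q j))) (g (((extChartAt 𝓘(ℝ, E₀) (aa (Q (j - 1))))).symm (c (j - 1)))) = c j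
      rw [hsymc, hQg])
    (by
      intro y hy hch
      have hy2 := hcoord y hy
      have hor := chainG y hy2 hch
      have h1 := key_claim hEx (β := 0) (δ := 0) (half_pos hc₀).le (by
        intro x hx
        refine ⟨x, fun n => ?_, fun n => by rw [dist_self]⟩
        exact (dist_le_zero.1 (hx n)).symm) hQg
        (x := fun j => (extChartAt 𝓘(ℝ, E₀) (aa (Q j))).symm (y j)) (by
          intro j
          rw [hor j, dist_self]) (by
          intro j
          exact ((hbox j _ (hy2 j)).trans_le (min_le_left _ _)).le)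
      funext j
      have h2 := dist_le_zero.1 (h1 j)
      have h3 := (extChartAt 𝓘(ℝ, E₀) (aa (Q j))).right_inv (htgt j (hle2 j (hy2 j)))
      rw [← h3, h2])
    (by
      intro v hv
      have hcc : ∀ j, c j ∈ closedBall (c j) (2 * r) := fun j => mem_closedBall_self (by linarith)
      have hw := no_per hg hinj (x := Q) (w := fun j => T (aa (Q j)) (c j) (v j)) hQg (by
          intro j
          have h1 := hv j
          rw [hderG j _ (hcc _)] at h1
          have h2 := congrArg (T (aa (Q j)) (c j)) h1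
          rw [← h2]
          have h3 := T_J (aa (Q j)) (himg j _ (hcc _)).1.1
            (dg E₀ g (((extChartAt 𝓘(ℝ, E₀) (aa (Q (j - 1))))).symm (c (j - 1))) (T (aa (Q (j - 1))) (c (j - 1))
              (v (j - 1))))
          have h4 : (extChartAt 𝓘(ℝ, E₀) (aa (Q j))) (g (((extChartAt 𝓘(ℝ, E₀) (aa (Q (j - 1))))).symm (c (j - 1)))) = c j := by
            rw [hsymc, hQg]
          rw [h4] at h3
          rw [h3, hsymc])
      funext j
      exact hTz j _ (hcc j) _ (congrFun hw j))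
    (by
      intro t ht y hy hch
      have hy2 := hcoord' y hy
      have hps : ∀ j, dist (g (((extChartAt 𝓘(ℝ, E₀) (aa (Q (j - 1))))).symm (y (j - 1)))) ((extChartAt 𝓘(ℝ, E₀) (aa (Q j))).symm (y j)) ≤
          δs := by
        intro j
        obtain ⟨⟨g1, g2⟩, f1, f2⟩ := himg j _ (hy2 (j - 1))
        have h1 : dist (Gm j (y (j - 1))) (Fm j (y (j - 1))) < κ₁ := by
          refine (hu5 (Q j) (Gm j (y (j - 1))) ?_ (f (((extChartAt 𝓘(ℝ, E₀) (aa (Q (j - 1))))).symm (y (j - 1)))) ?_).2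
          · rw [mem_closedBall, dist_comm]
            show dist (c j) ((extChartAt 𝓘(ℝ, E₀) (aa (Q j))) (g (((extChartAt 𝓘(ℝ, E₀) (aa (Q (j - 1))))).symm (y (j - 1))))) ≤ R
            linarith
          · have h2 : (extChartAt 𝓘(ℝ, E₀) (aa (Q j))).symm (Gm j (y (j - 1))) =
                g (((extChartAt 𝓘(ℝ, E₀) (aa (Q (j - 1))))).symm (y (j - 1))) := (extChartAt 𝓘(ℝ, E₀) (aa (Q j))).left_inv g1
            rw [h2, dist_comm]
            exact hfg2 _
        have h3 : dist (Gm j (y (j - 1))) (y j) < κ₁ := by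
          rw [hch j, dist_eq_norm] at *
          have h4 : Gm j (y (j - 1)) - ((1 - t) • Gm j (y (j - 1)) + t • Fm j (y (j - 1))) =
              t • (Gm j (y (j - 1)) - Fm j (y (j - 1))) := by
            rw [sub_smul, one_smul, smul_sub]; abel
          rw [h4, norm_smul, Real.norm_eq_abs, abs_of_nonneg ht.1]
          calc t * ‖Gm j (y (j - 1)) - Fm j (y (j - 1))‖ ≤ 1 * ‖Gm j (y (j - 1)) -
                Fm j (y (j - 1))‖ := mul_le_mul_of_nonneg_right ht.2 (norm_nonneg _)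
            _ < κ₁ := by rw [one_mul]; exact h1
        have h5 := hu4 (Q j) (Gm j (y (j - 1))) (by
          rw [mem_closedBall, dist_comm]
          show dist (c j) ((extChartAt 𝓘(ℝ, E₀) (aa (Q j))) (g (((extChartAt 𝓘(ℝ, E₀) (aa (Q (j - 1))))).symm (y (j - 1))))) ≤ R
          linarith) (y j) (hle2 j (hy2 j)) h3
        have h6 : (extChartAt 𝓘(ℝ, E₀) (aa (Q j))).symm (Gm j (y (j - 1))) =
                g (((extChartAt 𝓘(ℝ, E₀) (aa (Q (j - 1))))).symm (y (j - 1))) := (extChartAt 𝓘(ℝ, E₀) (aa (Q j))).left_inv g1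
        rw [h6] at h5
        exact h5.le
      have h1 := key_claim hEx hβ2 hsh hQg (x := fun j => (extChartAt 𝓘(ℝ, E₀) (aa (Q j))).symm (y j)) hps (by
          intro j
          exact ((hbox j _ (hy2 j)).trans_le (min_le_left _ _)).le)
      have h2 := (hnear (fun j => (extChartAt 𝓘(ℝ, E₀) (aa (Q j))).symm (y j)) (fun j => by
        have := h1 j
        linarith)).2
      have h3 : (fun j => (extChartAt 𝓘(ℝ, E₀) (aa (Q j))) ((extChartAt 𝓘(ℝ, E₀) (aa (Q j))).symm (y j))) = y := by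
        funext j
        exact (extChartAt 𝓘(ℝ, E₀) (aa (Q j))).right_inv (htgt j (hle2 j (hy2 j)))
      rwa [h3] at h2)
  -- the periodic point
  have hy2 := hcoord y hyb
  have hor := chainF y hy2 hych
  set x : ZMod m → M := fun j => (extChartAt 𝓘(ℝ, E₀) (aa (Q j))).symm (y j) with hx
  have hxQ := key_claim hEx hβ2 hsh hQg (x := x) (by
    intro j
    have h1 := hfg3 (x (j - 1))
    rw [hor j, dist_comm] at h1
    exact h1.le) (by
    intro j
    exact ((hbox j _ (hy2 j)).trans_le (min_le_left _ _)).le)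
  refine ⟨x 0, iter_zmod_per hor, fun i => ?_, fun p' hp' hd => ?_⟩
  · rw [iter_zmod hor]
    have h1 := hxQ (i : ZMod m)
    have h2 : Q (i : ZMod m) = g^[i] q := zorb_nat hq i
    rw [h2] at h1
    linarith
  · have h1 := hnear (fun j => f^[j.val] p') (fun j => hd j.val)
    have h2 := hyu _ h1.2 (by
      intro j
      show (extChartAt 𝓘(ℝ, E₀) (aa (Q j))) (f (((extChartAt 𝓘(ℝ, E₀) (aa (Q (j - 1))))).symm ((extChartAt 𝓘(ℝ, E₀) (aa (Q (j - 1)))) (f^[(j - 1).val] p')))) =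
        (extChartAt 𝓘(ℝ, E₀) (aa (Q j))) (f^[j.val] p')
      rw [((extChartAt 𝓘(ℝ, E₀) (aa (Q (j - 1))))).left_inv (h1.1 (j - 1)), zorb hp'])
    have h3 := congrFun h2 0
    have h4 : ((extChartAt 𝓘(ℝ, E₀) (aa (Q 0)))).symm ((extChartAt 𝓘(ℝ, E₀) (aa (Q 0))) (f^[(0 : ZMod m).val] p')) = x 0 := by
      rw [h3]
    rw [((extChartAt 𝓘(ℝ, E₀) (aa (Q 0)))).left_inv (h1.1 0)] at h4
    simpa using h4

end main

end Pool.Agent.V5helper18.Ma
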