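import Pool.Agent.V5helper18.Ma.C
import Pool.Agent.V5helper18.Dy.B
import Pool.Agent.Y331.EP.Man

/-!
# Anosov diffeomorphisms that are close in the `C⁰` sense
-/

set_option autoImplicit false
set_option linter.unusedSectionVars false

open scoped Manifold ContDiff Topology
open Set Filter Metric

namespace Pool.Agent.V5helper18.Ma

open Pool.Agent.H721R2 Pool.Agent.H789R2.AN Pool.Agent.Y331.EP Pool.Agent.TH289
open Pool.Agent.TH289.K Pool.Agent.TH289.L Pool.Agent.V5helper18.Dy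

/-- the periodic points -/
def Per {X : Type*} (f : X → X) : Set X := {p | ∃ n ≥ 1, f^[n] p = p}

section metric

variable {E : Type*} [NormedAddCommGroup E] [NormedSpace ℝ E] [FiniteDimensional ℝ E]

theorem metric_main {M : Type*} [MetricSpace M] [CompactSpace M] [ConnectedSpace M]
    [ChartedSpace E M] [IsManifold 𝓘(ℝ, E) ∞ M]
    {F : Type*} [NormedAddCommGroup F] [NormedSpace ℝ F]
    (e : M → F) (he : ContMDiff 𝓘(ℝ, E) 𝓘(ℝ, F) 1 e)
    (hinj : ∀ x, Function.Injective (dm E e x)) (g : Diffeomorph 𝓘(ℝ, E) 𝓘(ℝ, E) M M 1)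
    (Es Eu : ∀ x : M, Submodule ℝ (TangentSpace 𝓘(ℝ, E) x)) (hA : IsAnosov g Es Eu)
    {ν : ℝ} (hν : 0 < ν) :
    ∃ ε > 0, ∀ (f : Diffeomorph 𝓘(ℝ, E) 𝓘(ℝ, E) M M 1)
      (Es' Eu' : ∀ x : M, Submodule ℝ (TangentSpace 𝓘(ℝ, E) x)), IsAnosov f Es' Eu' →
      (∀ x, dist (f x) (g x) < ε) →
      ∃ h : M → M, Continuous h ∧ (∀ x, h (f x) = g (h x)) ∧ (∀ x, dist (h x) x < ν) ∧
        (∀ n ≥ 1, BijOn h {p | f^[n] p = p} {q | g^[n] q = q}) ∧
        (∀ x ∈ closure (Per f), ∀ x', h x' = h x → x' = x) ∧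
        h '' closure (Per f) = closure (Per g) ∧
        (TopTransitive f ↔ TopTransitive g) ∧ (TopTransitive g → Function.Bijective h) := by
  obtain ⟨eg, hG⟩ := ex_of_expansive (expansive_of_anosov g Es Eu hA)
  have hSg := man_shad g Es Eu hA
  obtain ⟨C, a, b, Ls, Lu, hEg⟩ := eanosov_of_isAnosov e he hinj g Es Eu hA
  obtain ⟨ρ₀, hρ₀, hP⟩ := per_unique e he hinj hEg hG hSg
  have heg := hG.pos
  set ρs := min (min (ν / 2) (ρ₀ / 2)) (eg / 4) with hρs
  have hρs0 : 0 < ρs := lt_min (lt_min (half_pos hν) (half_pos hρ₀)) (by positivity)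
  have hρs1 : ρs ≤ ν / 2 := (min_le_left _ _).trans (min_le_left _ _)
  have hρs2 : ρs ≤ ρ₀ / 2 := (min_le_left _ _).trans (min_le_right _ _)
  have hρs3 : ρs ≤ eg / 4 := min_le_right _ _
  obtain ⟨ε₁, hε₁, hP⟩ := hP ρs hρs0 (by linarith)
  obtain ⟨ε₂, hε₂, hsemi⟩ := exists_semi hG hSg hρs0
  obtain ⟨ε₃, hε₃, hback⟩ := tt_back hSg
  refine ⟨min (min ε₁ ε₂) ε₃, lt_min (lt_min hε₁ hε₂) hε₃, fun f Es' Eu' hA' hfg => ?_⟩
  have hfg1 : ∀ x, dist (f.toHomeomorph x) (g.toHomeomorph x) < ε₁ := fun x =>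
    (hfg x).trans_le ((min_le_left _ _).trans (min_le_left _ _))
  have hfg2 : ∀ x, dist (f.toHomeomorph x) (g.toHomeomorph x) < ε₂ := fun x =>
    (hfg x).trans_le ((min_le_left _ _).trans (min_le_right _ _))
  have hfg3 : ∀ x, dist (f.toHomeomorph x) (g.toHomeomorph x) < ε₃ := fun x =>
    (hfg x).trans_le (min_le_right _ _)
  obtain ⟨ef, hF⟩ := ex_of_expansive (expansive_of_anosov f Es' Eu' hA')
  have hSf := man_shad f Es' Eu' hA'
  obtain ⟨C', a', b', Ls', Lu', hEf⟩ := eanosov_of_isAnosov e he hinj f Es' Eu' hA'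
  have hP' := hP f.toHomeomorph Es' Eu' C' a' b' Ls' Lu' hEf hfg1
  obtain ⟨h, hc, hh, hd⟩ := hsemi f.toHomeomorph hfg2
  have hit : ∀ (n : ℕ) x, h (f.toHomeomorph^[n] x) = g.toHomeomorph^[n] (h x) := fun n x =>
    semi_iter hh n x
  have hinjp : ∀ p p' n, 1 ≤ n → f.toHomeomorph^[n] p = p → f.toHomeomorph^[n] p' = p' →
      h p = h p' → p = p' := by
    intro p p' n hn hp hp' hpp
    have hq : g.toHomeomorph^[n] (h p) = h p := by rw [← hit, hp]
    obtain ⟨p₀, -, -, hu⟩ := hP' n hn (h p) hq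
    have h1 := hu p hp (fun i => by
      rw [← hit, dist_comm]
      exact (hd _).trans_lt (by linarith))
    have h2 := hu p' hp' (fun i => by
      rw [hpp, ← hit, dist_comm]
      exact (hd _).trans_lt (by linarith))
    rw [h1, h2]
  have hper : ∀ q n, 1 ≤ n → g.toHomeomorph^[n] q = q →
      ∃ p, f.toHomeomorph^[n] p = p ∧ h p = q := by
    intro q n hn hq
    obtain ⟨p, hp, hpd, -⟩ := hP' n hn q hq
    refine ⟨p, hp, ?_⟩
    refine per_eq hG hn ?_ hq ?_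
    · rw [← hit, hp]
    · intro k _
      rw [← hit]
      have h1 := hd (f.toHomeomorph^[k] p)
      have h2 := hpd k
      have := dist_triangle (h (f.toHomeomorph^[k] p)) (f.toHomeomorph^[k] p)
        (g.toHomeomorph^[k] q)
      linarith
  refine ⟨h, hc, hh, fun x => (hd x).trans_lt (by linarith), ?_, ?_, ?_, ?_, ?_⟩
  · intro n hn
    refine ⟨?_, ?_, ?_⟩
    · intro p hp
      show g.toHomeomorph^[n] (h p) = h p
      rw [← hit]
      exact congrArg h hp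
    · intro p hp p' hp' hpp
      exact hinjp p p' n hn hp hp' hpp
    · intro q hq
      obtain ⟨p, hp, hpq⟩ := hper q n hn hq
      exact ⟨p, hp, hpq⟩
  · intro x hx x' hxx
    exact (fib_rec hF hSf hG hc hh hinjp hx hxx.symm).symm
  · apply Subset.antisymm
    · refine (image_closure_subset_closure_image hc).trans (closure_mono ?_)
      rintro _ ⟨p, ⟨n, hn, hp⟩, rfl⟩
      refine ⟨n, hn, ?_⟩
      show g.toHomeomorph^[n] (h p) = h p
      rw [← hit]
      exact congrArg h hp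
    · apply closure_minimal
      · rintro q ⟨n, hn, hq⟩
        obtain ⟨p, hp, hpq⟩ := hper q n hn hq
        exact ⟨p, subset_closure ⟨n, hn, hp⟩, hpq⟩
      · exact (isClosed_closure.isCompact.image hc).isClosed
  · constructor
    · intro hT
      exact hback f.toHomeomorph hfg3 hT
    · intro hT
      exact (Dy.abs_main hF hSf hG hSg (show Dy.TT g.toHomeomorph from hT) hc hh hinjp hper).1
  · intro hT
    exact (Dy.abs_main hF hSf hG hSg (show Dy.TT g.toHomeomorph from hT) hc hh hinjp hper).2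

end metric

section top

variable {E : Type*} [NormedAddCommGroup E] [NormedSpace ℝ E] [FiniteDimensional ℝ E]
  {M : Type*} [TopologicalSpace M] [T2Space M] [CompactSpace M] [ConnectedSpace M]
  [ChartedSpace E M] [IsManifold 𝓘(ℝ, E) ∞ M]

theorem top_main (g : Diffeomorph 𝓘(ℝ, E) 𝓘(ℝ, E) M M 1)
    (Es Eu : ∀ x : M, Submodule ℝ (TangentSpace 𝓘(ℝ, E) x)) (hA : IsAnosov g Es Eu)
    {𝒱 : Set (M × M)} (h𝒱 : 𝒱 ∈ 𝓝ˢ (diagonal M)) :
    ∃ 𝒰 ∈ 𝓝ˢ (diagonal M), ∀ (f : Diffeomorph 𝓘(ℝ, E) 𝓘(ℝ, E) M M 1)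
      (Es' Eu' : ∀ x : M, Submodule ℝ (TangentSpace 𝓘(ℝ, E) x)), IsAnosov f Es' Eu' →
      (∀ x, (f x, g x) ∈ 𝒰) →
      ∃ h : M → M, Continuous h ∧ (∀ x, h (f x) = g (h x)) ∧ (∀ x, (h x, x) ∈ 𝒱) ∧
        (∀ n ≥ 1, BijOn h {p | f^[n] p = p} {q | g^[n] q = q}) ∧
        (∀ x ∈ closure (Per f), ∀ x', h x' = h x → x' = x) ∧
        h '' closure (Per f) = closure (Per g) ∧
        (TopTransitive f ↔ TopTransitive g) ∧ (TopTransitive g → Function.Bijective h) := by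
  obtain ⟨m, e, hee, hemb, hinje⟩ :=
    exists_embedding_euclidean_of_compact (I := 𝓘(ℝ, E)) (M := M)
  let _ : MetricSpace M := hemb.isEmbedding.comapMetricSpace e
  have he1 : ContMDiff 𝓘(ℝ, E) (𝓡 m) 1 e := hee.of_le (by simp)
  rw [nhdsSet_diagonal_eq_uniformity, Metric.mem_uniformity_dist] at h𝒱
  obtain ⟨ν, hν, h1⟩ := h𝒱
  obtain ⟨ε, hε, h2⟩ := metric_main e he1 hinje g Es Eu hA hν
  refine ⟨{p | dist p.1 p.2 < ε}, ?_, fun f Es' Eu' hA' hfg => ?_⟩
  · rw [nhdsSet_diagonal_eq_uniformity]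
    exact Metric.dist_mem_uniformity hε
  · obtain ⟨h, hc, hh, hd, rest⟩ := h2 f Es' Eu' hA' hfg
    exact ⟨h, hc, hh, fun x => h1 (hd x), rest⟩

/-- continuous families -/
theorem family {T : Type*} [TopologicalSpace T] [PreconnectedSpace T]
    (f : T → Diffeomorph 𝓘(ℝ, E) 𝓘(ℝ, E) M M 1)
    (Es Eu : T → ∀ x : M, Submodule ℝ (TangentSpace 𝓘(ℝ, E) x))
    (hA : ∀ t, IsAnosov (f t) (Es t) (Eu t)) (hc : Continuous fun p : T × M => f p.1 p.2)
    (s t : T) (hs : TopTransitive (f s)) :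
    TopTransitive (f t) ∧ ∃ h : M ≃ₜ M, ∀ x, h (f s x) = f t (h x) := by
  -- local statement
  have hloc : ∀ t, ∀ᶠ s in 𝓝 t, (TopTransitive (f s) ↔ TopTransitive (f t)) ∧
      (TopTransitive (f t) → ∃ h : M ≃ₜ M, ∀ x, h (f s x) = f t (h x)) := by
    intro t
    obtain ⟨𝒰, h𝒰, hm⟩ := top_main (f t) (Es t) (Eu t) (hA t) (𝒱 := univ) univ_mem
    have hev : ∀ᶠ s in 𝓝 t, ∀ x ∈ (univ : Set M), (f s x, f t x) ∈ 𝒰 := by
      apply isCompact_univ.eventually_forall_of_forall_eventually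
      intro x _
      have h1 : ContinuousAt (fun p : T × M => (f p.1 p.2, f t p.2)) (t, x) :=
        (hc.prodMk ((f t).continuous.comp continuous_snd)).continuousAt
      have h2 : 𝒰 ∈ 𝓝 (f t x, f t x) := mem_nhdsSet_iff_forall.1 h𝒰 _ rfl
      exact h1.eventually h2
    filter_upwards [hev] with s hs
    obtain ⟨h, hcont, hh, -, -, -, -, h1, h2⟩ := hm (f s) (Es s) (Eu s) (hA s)
      (fun x => hs x trivial)
    refine ⟨h1, fun hT => ?_⟩
    have hb := h2 hT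
    exact ⟨(Continuous.homeoOfEquivCompactToT2 (f := Equiv.ofBijective h hb) hcont), hh⟩
  set A : Set T := {t | TopTransitive (f t) ∧ ∃ h : M ≃ₜ M, ∀ x, h (f s x) = f t (h x)} with hAd
  have hop : IsOpen A := by
    rw [isOpen_iff_mem_nhds]
    rintro t ⟨ht, h, hh⟩
    filter_upwards [hloc t] with r hr
    obtain ⟨k, hk⟩ := hr.2 ht
    refine ⟨hr.1.2 ht, h.trans k.symm, fun x => ?_⟩
    show k.symm (h (f s x)) = f r (k.symm (h x))
    rw [hh, Homeomorph.symm_apply_eq, hk, Homeomorph.apply_symm_apply]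
  have hcl : IsClosed A := by
    rw [← isOpen_compl_iff, isOpen_iff_mem_nhds]
    intro t ht
    filter_upwards [hloc t] with r hr
    rintro ⟨hr1, h, hh⟩
    apply ht
    have h1 := hr.1.1 hr1
    obtain ⟨k, hk⟩ := hr.2 h1
    refine ⟨h1, h.trans k, fun x => ?_⟩
    show k (h (f s x)) = f t (k (h x))
    rw [hh, hk]
  have hne : A.Nonempty := ⟨s, hs, Homeomorph.refl M, fun x => rfl⟩
  have := (IsClopen.eq_univ ⟨hcl, hop⟩ hne)
  have h1 : t ∈ A := by rw [this]; trivial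
  exact h1

end top

end Pool.Agent.V5helper18.Ma
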